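import Mathlib
import Pool.Agent.H.MP_c19edd_an.A

namespace Pool.Agent.H.MP_c19edd_an

open Set Filter Topology MeasureTheory

set_option maxHeartbeats 400000

def gap (U : ℕ → Bool) (k : ℕ) : Set ℝ := Ioo (p U k - ρ k) (p U k)

theorem odd3 {k : ℕ} (hk : Odd k) : (5 / 4 : ℝ) * (-1 / 3) ^ (k + 1) = ρ k := by
  unfold ρ
  rw [neg_div, (hk.add_one).neg_pow]

theorem gap_sub (U : ℕ → Bool) {k : ℕ} (hk : Odd k) : gap U k ⊆ hull U k := by
  rintro y ⟨h1, h2⟩
  have h3 := (p_mem U k).2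
  have h4 := x_sub k
  have h5 := r_pos (k + 1)
  rw [odd3 hk] at h4
  unfold p at h1
  constructor <;> linarith

theorem gap_near (U : ℕ → Bool) {k : ℕ} (hk : Odd k) {y : ℝ} (hy : y ∈ gap U k) :
    |F U - y| ≤ r k := by
  have h1 := gap_sub U hk hy
  have h2 := F_mem U k
  rw [abs_le]
  constructor <;> linarith [h1.1, h1.2, h2.1, h2.2]

def Blk (U V : ℕ → Bool) (n s k : ℕ) : Prop :=
  ∃ m, m ≠ k ∧ n ≤ m ∧ m ≤ k + s ∧ ∃ e : ℕ → Bool, (∀ i < n, e i = V i) ∧
    ∃ y ∈ gap U k, |y - p e m| ≤ ρ m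

theorem blk_near {U V : ℕ → Bool} {n s k t : ℕ} (hV : F V = F U)
    (hn : ∀ m ≥ n, ∀ e, 2 * (9 / 20) ^ m < |F U - p e m|) (hk : Odd k) (htk : t ≤ k)
    (hη : ∀ m < t, r k ≤ (9 / 20) ^ m) (h : Blk U V n s k) :
    ∃ m, m ≠ k ∧ m ≤ k + s ∧ ∃ e : ℕ → Bool,
      |(a U k + (1 / 2) ^ (k + 1)) - (a e m + (1 / 2) ^ (m + 1)) + (b U t - b V t)|
        ≤ 2 * (1 / 3) ^ t := by
  obtain ⟨m, h1, h2, h3, e, he, y, hy, hym⟩ := h
  have hy0 := gap_near U hk hy
  have h4 : |F U - p e m| ≤ r k + ρ m := by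
    have := abs_sub_le (F U) y (p e m)
    linarith
  have htm : t ≤ m := by
    by_contra hc
    have := hn m h2 e
    have := hη m (not_le.1 hc)
    have := ρ_le m
    have := ρ_pos m
    linarith
  have hagree : ∀ i < t, e i = V i := by
    by_contra hc
    obtain ⟨j, j1, j2, j3, j4⟩ := first he hc
    have h5 := split (fun i hi => (j3 i hi).symm) j4.symm (F_mem V _)
      (hull_anti e (by omega : j + 1 ≤ m) (p_mem e m))
    rw [hV] at h5
    have := hn j j1 V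
    have := hη j j2
    have := ρ_le j
    have := ρ_anti (by omega : j ≤ m)
    linarith
  refine ⟨m, h1, h3, e, ?_⟩
  have e1 : b e t = b V t :=
    Finset.sum_congr rfl fun i hi => by rw [hagree i (Finset.mem_range.1 hi)]
  have h5 := abs_le.1 (b_near e htm)
  have h6 := abs_le.1 (b_near U htk)
  have h7 := p_eq e m
  have h8 := p_eq U k
  have h9 := abs_le.1 hym
  have h10 := ρ_anti htm
  have h11 := ρ_anti htk
  have h12 : ρ t = 5 / 12 * (1 / 3) ^ t := by unfold ρ; ring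
  have h13 : (0:ℝ) < (1 / 3) ^ t := by positivity
  rw [abs_le]
  constructor <;> linarith [hy.1, hy.2, h5.1, h5.2, h6.1, h6.2, h9.1, h9.2]

theorem uniq {U V : ℕ → Bool} {n s k : ℕ} (hk : Odd k) (h : ¬ Blk U V n s k) {e e' : ℕ → Bool}
    (he : ∀ i < n, e i = V i) (he' : ∀ i < n, e' i = V i) (hy : F e ∈ gap U k)
    (hy' : F e' ∈ gap U k) : ∀ i < k + s + 1, e i = e' i := by
  have key : ∀ {e e' : ℕ → Bool}, (∀ i < n, e i = V i) → F e ∈ gap U k → F e' ∈ gap U k →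
      ∀ m, n ≤ m → m < k + s + 1 → (∀ i < m, e i = e' i) → e m = false → e' m = true → False := by
    intro e e' he hy hy' m h1 h2 h3 h4 h5
    have a1 := lo h4 (F_mem e _)
    have a2 := lo' h4 (F_mem e _)
    have a3 := hi h5 (F_mem e' _)
    rw [← p_congr h3] at a3
    have a4 := ρ_pos m
    by_cases hm : m = k
    · subst hm
      rw [odd3 hk] at a1
      linarith [hy.1, hy'.2]
    · refine h ⟨m, hm, h1, by omega, e, he, ?_⟩
      rcases le_total (p e m) (F e) with h6 | h6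
      · exact ⟨F e, hy, abs_le.2 ⟨by linarith, by linarith⟩⟩
      · exact ⟨p e m, ⟨by linarith [hy.1], by linarith [hy'.2]⟩, by simpa using a4.le⟩
  by_contra hc
  obtain ⟨m, h1, h2, h3, h4⟩ := first (n := n) (fun i hi => (he i hi).trans (he' i hi).symm) hc
  cases h5 : e m <;> cases h6 : e' m
  · exact h4 (h5.trans h6.symm)
  · exact key he hy hy' m h1 h2 h3 h5 h6
  · exact key he' hy' hy m h1 h2 (fun i hi => (h3 i hi).symm) h6 h5
  · exact h4 (h5.trans h6.symm)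

theorem miss {U : ℕ → Bool} {n s k : ℕ} (hk : Odd k) (h : ¬ Blk U U n s k) {e : ℕ → Bool}
    (he : ∀ i < n, e i = U i) (hy : F e ∈ gap U k) : False := by
  by_cases hc : ∀ i < k, e i = U i
  · have h1 := p_congr hc
    cases h2 : e k
    · have := lo h2 (F_mem e _)
      rw [odd3 hk] at this
      linarith [hy.1]
    · have := hi h2 (F_mem e _)
      linarith [hy.2]
  · obtain ⟨m, h1, h2, h3, h4⟩ := first he hc
    refine h ⟨m, h2.ne, h1, by omega, e, he, F e, hy, ?_⟩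
    simpa using split h3 h4 (F_mem e _) (hull_anti U (by omega : m + 1 ≤ k) (gap_sub U hk hy))

theorem near_fib (y : ℝ) (n : ℕ) :
    ∃ δ > 0, ∀ e, |y - F e| < δ → ∃ V, F V = y ∧ ∀ i < n, e i = V i := by
  have hc : IsClosed {e : ℕ → Bool | ∀ V, F V = y → ¬ ∀ i < n, e i = V i} := by
    simp only [Set.ofPred_forall]
    refine isClosed_iInter fun V => isClosed_iInter fun _ => ?_
    rw [← isOpen_compl_iff]
    have : {e : ℕ → Bool | ¬ ∀ i < n, e i = V i}ᶜ = ⋂ i ∈ Finset.range n, {e | e i = V i} := by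
      ext e; simp
    rw [this]
    exact isOpen_biInter_finset fun i _ =>
      (isOpen_discrete {V i}).preimage (continuous_apply (A := fun _ : ℕ => Bool) i)
  have h1 := (hc.isCompact.image F_cont).isClosed.isOpen_compl
  obtain ⟨δ, hδ, h2⟩ := Metric.isOpen_iff.1 h1 y (by
    rintro ⟨e, he, rfl⟩
    exact he e rfl fun _ _ => rfl)
  refine ⟨δ, hδ, fun e he => ?_⟩
  by_contra hcon
  refine h2 (show F e ∈ Metric.ball y δ by rwa [Metric.mem_ball, dist_comm]) ⟨e, ?_, rfl⟩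
  intro V hV hi
  exact hcon ⟨V, hV, hi⟩

theorem params (n C : ℕ) (δ : ℝ) (hδ : 0 < δ) : ∃ t K : ℕ, Odd K ∧ t ≤ K ∧
    (∀ k ≥ K, ∀ m < t, r k ≤ (9 / 20) ^ m) ∧ (∀ k ≥ K, r k < δ) ∧
    4 * (1 / 3 : ℝ) ^ t < (1 / 2) ^ (K + C + 1) ∧ n ≤ t := by
  have h1 : Tendsto (fun q : ℕ => (1024 / 6561 : ℝ) ^ q) atTop (𝓝 0) :=
    tendsto_pow_atTop_nhds_zero_of_lt_one (by norm_num) (by norm_num)
  have h2 : Tendsto (fun q : ℕ => (1 / 1024 : ℝ) ^ q) atTop (𝓝 0) :=
    tendsto_pow_atTop_nhds_zero_of_lt_one (by norm_num) (by norm_num)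
  obtain ⟨q, ⟨hq1, hq2⟩, hq3⟩ := (((h1.eventually_lt_const
    (show (0:ℝ) < (1 / 2) ^ (C + 4) by positivity)).and (h2.eventually_lt_const hδ)).and
    (eventually_ge_atTop n)).exists
  have e1 : ∀ k ≥ 10 * q + 1, r k ≤ (1 / 1024) ^ q := by
    intro k hk
    have a1 := r_le k
    have a2 : (1 / 2 : ℝ) ^ k ≤ (1 / 2) ^ (10 * q + 1) :=
      pow_le_pow_of_le_one (by norm_num) (by norm_num) hk
    rw [pow_succ, pow_mul, show (1 / 2 : ℝ) ^ 10 = 1 / 1024 by norm_num] at a2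
    have a3 : (0:ℝ) < (1 / 1024) ^ q := by positivity
    linarith
  refine ⟨8 * q, 10 * q + 1, ⟨5 * q, by ring⟩, by omega, fun k hk m hm => ?_,
    fun k hk => (e1 k hk).trans_lt hq2, ?_, by omega⟩
  · refine (e1 k hk).trans ?_
    calc (1 / 1024 : ℝ) ^ q ≤ ((9 / 20) ^ 8) ^ q := pow_le_pow_left₀ (by norm_num) (by norm_num) q
      _ = (9 / 20) ^ (8 * q) := by rw [pow_mul]
      _ ≤ _ := pow_le_pow_of_le_one (by norm_num) (by norm_num) hm.le
  · have a1 : (1 / 3 : ℝ) ^ (8 * q) = (1024 / 6561) ^ q * (1 / 1024) ^ q := by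
      rw [pow_mul, ← mul_pow]; norm_num
    have a2 : (1 / 2 : ℝ) ^ (10 * q + 1 + C + 1) = 4 * ((1 / 2) ^ (C + 4) * (1 / 1024) ^ q) := by
      rw [show (1 / 1024 : ℝ) = (1 / 2) ^ 10 by norm_num, ← pow_mul]; ring
    rw [a1, a2]
    have a3 : (0:ℝ) < (1 / 1024) ^ q := by positivity
    gcongr

theorem step {U : ℕ → Bool} (hU : Good (F U)) {ε : ℝ} (hε : 0 < ε) :
    ∃ y, |F U - y| < ε ∧ Good y ∧ {e | F e = y}.ncard < {e | F e = F U}.ncard := by
  classical
  have hfin := fib_fin hU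
  obtain ⟨n, hn⟩ := hU
  obtain ⟨δ, hδ, hfib⟩ := near_fib (F U) n
  set Φ := hfin.toFinset with hΦ
  have hΦm : ∀ V, V ∈ Φ ↔ F V = F U := fun V => by simp [hΦ]
  set L := Φ.card with hL
  obtain ⟨s, hs⟩ : ∃ s : ℕ, 6 * (L : ℝ) * (1 / 3) ^ (s + 1) < 1 := by
    obtain ⟨s, hs⟩ := exists_pow_lt_of_lt_one (show (0:ℝ) < 1 / (6 * L + 1) by positivity)
      (show (1 / 3 : ℝ) < 1 by norm_num)
    refine ⟨s, ?_⟩
    rw [lt_div_iff₀ (by positivity)] at hs
    have : (0:ℝ) < (1 / 3) ^ s := by positivity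
    have : (0:ℝ) ≤ L := by positivity
    rw [pow_succ]; nlinarith
  obtain ⟨t, K, hK, htK, h1, h2, h3, -⟩ := params n (L * (2 * (s + 1)) + s) _ (lt_min hδ hε)
  have hodd : ∀ i : ℕ, Odd (K + i * (2 * (s + 1))) := fun i =>
    hK.add_even ⟨i * (s + 1), by ring⟩
  obtain ⟨k, hk, hKk, hblk⟩ : ∃ k, Odd k ∧ K ≤ k ∧ ∀ V ∈ Φ, ¬ Blk U V n s k := by
    by_contra hc
    push Not at hc
    choose! V hV1 hV2 using fun i : ℕ => hc _ (hodd i) (Nat.le_add_right _ _)
    obtain ⟨i, hi, j, hj, hij, hVij⟩ := Finset.exists_ne_map_eq_of_card_lt_of_maps_to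
      (s := Finset.range (L + 1)) (t := Φ) (by simp [hL]) (f := V) fun i _ => hV1 i
    wlog hlt : i < j generalizing i j
    · exact this j hj i hi hij.symm hVij.symm (lt_of_le_of_ne (not_lt.1 hlt) hij.symm)
    obtain ⟨m, m1, m2, e, he⟩ := blk_near ((hΦm _).1 (hV1 i)) hn (hodd i)
      (htK.trans (Nat.le_add_right _ _)) (h1 _ (Nat.le_add_right _ _)) (hV2 i)
    obtain ⟨m', m1', m2', e', he'⟩ := blk_near ((hΦm _).1 (hV1 j)) hn (hodd j)
      (htK.trans (Nat.le_add_right _ _)) (h1 _ (Nat.le_add_right _ _)) (hV2 j)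
    rw [hVij] at he
    have hj' : j * (2 * (s + 1)) ≤ L * (2 * (s + 1)) :=
      Nat.mul_le_mul_right _ (by simpa [Nat.lt_succ_iff] using hj)
    have hij' : (i + 1) * (2 * (s + 1)) ≤ j * (2 * (s + 1)) := Nat.mul_le_mul_right _ hlt
    rw [add_mul] at hij'
    have := sep U e U e' (k := K + i * (2 * (s + 1))) (m := m) (k' := K + j * (2 * (s + 1)))
      (m' := m') (N := K + (L * (2 * (s + 1)) + s)) (by omega) (by omega) m1' (by omega) (by omega)
    rw [abs_le] at he he'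
    have h4 := this.trans (abs_le.2 (show -(4 * (1 / 3 : ℝ) ^ t) ≤ _ ∧ _ ≤ 4 * (1 / 3 : ℝ) ^ t from
      ⟨by linarith [he.1, he'.2], by linarith [he.2, he'.1]⟩))
    linarith
  have hW : ∀ V ∈ Φ, ∃ W : ℕ → Bool, ∀ e : ℕ → Bool, (∀ i < n, e i = V i) → F e ∈ gap U k →
      ∀ i < k + s + 1, e i = W i := by
    intro V hV
    by_cases h : ∃ W : ℕ → Bool, (∀ i < n, W i = V i) ∧ F W ∈ gap U k
    · obtain ⟨W, w1, w2⟩ := h
      exact ⟨W, fun e e1 e2 => uniq hk (hblk V hV) e1 w1 e2 w2⟩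
    · exact ⟨U, fun e e1 e2 => absurd ⟨e, e1, e2⟩ h⟩
  choose! W hW using hW
  set O : (ℕ → Bool) → Set ℝ := fun V => {y | ∃ m ≥ k + s + 1, ∃ e : ℕ → Bool,
    (∀ i < k + s + 1, e i = W V i) ∧ |y - p e m| ≤ ρ m} with hO
  obtain ⟨y, hy, hyg, hyO⟩ : ∃ y ∈ gap U k, Good y ∧ ∀ V ∈ Φ, y ∉ O V := by
    by_contra hc
    push Not at hc
    have a1 : volume (gap U k) ≤ volume (⋃ V ∈ Φ, O V) := by
      refine measure_mono_ae ?_
      filter_upwards [ae_good] with y hy hy'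
      obtain ⟨V, hV, h⟩ := hc y hy' hy
      exact mem_biUnion hV h
    have a2 : volume (⋃ V ∈ Φ, O V) ≤ ENNReal.ofReal (L * (6 * ρ (k + s + 1))) := by
      refine (measure_biUnion_finset_le _ _).trans
        ((Finset.sum_le_sum fun V _ => meas_tail (W V) _).trans (le_of_eq ?_))
      rw [Finset.sum_const, nsmul_eq_mul, ENNReal.ofReal_mul (p := L) (by positivity)]
      simp [hL]
    have a3 := a1.trans a2
    have a4 := ρ_pos k
    have a5 := ρ_pos (k + s + 1)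
    rw [gap, Real.volume_Ioo, ENNReal.ofReal_le_ofReal_iff (by positivity)] at a3
    have a6 : ρ (k + s + 1) = ρ k * (1 / 3) ^ (s + 1) := by unfold ρ; ring
    rw [a6] at a3
    nlinarith
  have hyn := (gap_near U hk hy).trans_lt (h2 k hKk)
  refine ⟨y, hyn.trans_le (min_le_right _ _), hyg, ?_⟩
  have hV : ∀ e, F e = y → ∃ V, F V = F U ∧ ∀ i < n, e i = V i := fun e he =>
    hfib e (by rw [he]; exact hyn.trans_le (min_le_left _ _))
  choose! V hV1 hV2 using hV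
  refine lt_of_le_of_lt (Set.ncard_le_ncard_of_injOn V (t := {e | F e = F U} \ {U}) ?_ ?_
    (hfin.subset sdiff_subset)) (Set.ncard_sdiff_singleton_lt_of_mem rfl hfin)
  · intro e he
    refine ⟨hV1 e he, fun h => ?_⟩
    have h : V e = U := h
    exact miss hk (hblk U ((hΦm U).2 rfl)) (e := e) (fun i hi => by rw [hV2 e he i hi, h])
      (by rw [he]; exact hy)
  · intro e he e' he' h
    have he : F e = y := he
    have he' : F e' = y := he'
    by_contra hne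
    obtain ⟨j, hj⟩ := Function.ne_iff.1 hne
    have hm := (hΦm _).2 (hV1 e he)
    have a1 := hW _ hm e (hV2 e he) (by rw [he]; exact hy)
    have a2 := hW _ hm e' (fun i hi => by rw [h]; exact hV2 e' he' i hi) (by rw [he']; exact hy)
    obtain ⟨m, m1, -, m2, m3⟩ := first (n := k + s + 1) (k := j + 1) (e := e) (e' := e')
      (fun i hi => (a1 i hi).trans (a2 i hi).symm) (fun h => hj (h j (by omega)))
    have a3 := split m2 m3 (F_mem e _) (F_mem e' _)
    rw [he, he'] at a3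
    exact hyO _ hm ⟨m, m1, e, a1, by simpa using a3⟩

theorem interior_empty : interior (range F) = ∅ := by
  by_contra h
  have hJ : ∃ y ∈ interior (range F), Good y := by
    by_contra hc
    push Not at hc
    have : volume (interior (range F)) = 0 :=
      measure_mono_null (fun y hy => hc y hy) ae_good
    exact (isOpen_interior.measure_pos volume (nonempty_iff_ne_empty.2 h)).ne' this
  have key : ∀ N y, y ∈ interior (range F) → Good y → {e | F e = y}.ncard ≠ N := by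
    intro N
    induction N using Nat.strong_induction_on with
    | _ N ih =>
      intro y hy hg hN
      obtain ⟨U, rfl⟩ := interior_subset hy
      obtain ⟨ε, hε, hb⟩ := Metric.isOpen_iff.1 isOpen_interior _ hy
      obtain ⟨z, h1, h2, h3⟩ := step hg hε
      exact ih _ (hN ▸ h3) z (hb (by rwa [Metric.mem_ball, dist_comm])) h2 rfl
  obtain ⟨y, h1, h2⟩ := hJ
  exact key _ y h1 h2 rfl

end Pool.Agent.H.MP_c19edd_an
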